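import Mathlib
import Pool.Agent.V11242.RN.Forced

/-!
# A ccc forcing which forces `non(N) ≤ |K| < cov(N)`

The measure algebra which adds more than the continuum many random reals, from the library.
-/

set_option autoImplicit false

namespace Pool.Agent.Helper872.RN

open Cardinal Pool.Agent.TH773.PSet Pool.Agent.V11242 Pool.Agent.V11242.RN

theorem exists_forcing : ∃ (K P : Type) (_ : Preorder P), Nonempty P ∧
    (∀ A : Set P, (∀ p ∈ A, ∀ q ∈ A, p ≠ q → ¬ ∃ r, r ≤ p ∧ r ≤ q) → A.Countable) ∧
    ∀ p : P, p ∈ PhiHolds P K := by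
  let K : Type := Set ℕ
  let I : Type := (Order.succ #K : Cardinal.{0}).out
  have hK : ℵ₀ < #K := by
    rw [← mk_nat]
    show #ℕ < #(Set ℕ)
    rw [mk_set]
    exact cantor _
  have hI : #K < #I := by
    show #K < #((Order.succ #K : Cardinal.{0}).out)
    rw [mk_out]
    exact Order.lt_succ _
  refine ⟨K, Random I, inferInstance, ⟨RF.mk Set.univ MeasurableSet.univ (by simp)⟩, ?_,
    fun p => phiHolds hK hI p⟩
  intro A hA
  refine RF.countable_of_incomp (μ := coinProduct I) (fun p : A => p.1) fun p q hpq => ?_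
  exact hA p.1 p.2 q.1 q.2 fun h => hpq (Subtype.ext h)

end Pool.Agent.Helper872.RN
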