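import Mathlib
import Pool.Agent.V11242.RN.Ground

/-!
# From Cantor space to the real line

The binary expansion map `UU : 2^ω → [0,1]` pulls Lebesgue null sets back to null sets. Hence the
sentence `PhiFor K` of `Pool.Agent.V11242.RN` (`non(N) ≤ |K| < cov(N)` for Cantor space) gives
the same inequalities for the line and for the unit interval.
-/

set_option autoImplicit false
set_option linter.unusedSectionVars false

namespace Pool.Agent.Helper872.RN

open MeasureTheory Filter Topology Set Cardinal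
open Pool.Agent.V11242.RN (lam lam_pi PhiFor exists_notMem exists_nonnull exists_notMem_of_le)
open scoped ENNReal

/-- the number with given leading binary digits -/
def vb (b : ℕ → Bool) : ℕ → ℕ
  | 0 => 0
  | n+1 => 2 * vb b n + (b n).toNat

lemma vb_inj {b b' : ℕ → Bool} {n : ℕ} (h : vb b n = vb b' n) : ∀ i < n, b i = b' i := by
  induction n with
  | zero => intro i hi; omega
  | succ n ih =>
    rw [vb, vb] at h
    have h1 : (b n).toNat ≤ 1 := Bool.toNat_le _
    have h2 : (b' n).toNat ≤ 1 := Bool.toNat_le _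
    have h3 : vb b n = vb b' n := by omega
    have h4 : (b n).toNat = (b' n).toNat := by omega
    intro i hi
    rcases Nat.lt_succ_iff_lt_or_eq.1 hi with h5 | h5
    · exact ih h3 i h5
    · subst h5
      cases hx : b i <;> cases hy : b' i <;> simp_all

lemma measurable_vb (n : ℕ) : Measurable (fun b : ℕ → Bool => vb b n) := by
  induction n with
  | zero => exact measurable_const
  | succ n ih =>
    have h1 : Measurable (fun b : ℕ → Bool => (b n).toNat) :=
      (measurable_of_countable (fun b : Bool => b.toNat)).comp (measurable_pi_apply n)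
    exact (measurable_const.mul ih).add h1

/-- dyadic approximations -/
noncomputable def ab (b : ℕ → Bool) (n : ℕ) : ℝ := (vb b n : ℝ) * (1/2)^n

lemma ab_succ (b : ℕ → Bool) (n : ℕ) : ab b (n+1) = ab b n + ((b n).toNat : ℝ) * (1/2)^(n+1) := by
  unfold ab
  rw [vb]
  push_cast
  rw [pow_succ]; ring

lemma ab_mono (b : ℕ → Bool) : Monotone (ab b) := by
  refine monotone_nat_of_le_succ fun n => ?_
  rw [ab_succ]
  have : (0:ℝ) ≤ ((b n).toNat : ℝ) * (1/2)^(n+1) := by positivity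
  linarith

lemma ab_anti (b : ℕ → Bool) : Antitone (fun n => ab b n + (1/2)^n) := by
  refine antitone_nat_of_succ_le fun n => ?_
  rw [ab_succ, pow_succ]
  have h1 : ((b n).toNat : ℝ) ≤ 1 := by exact_mod_cast Bool.toNat_le (b n)
  have h2 : (0:ℝ) < (1/2)^n := by positivity
  nlinarith

lemma ab_le (b : ℕ → Bool) (n m : ℕ) : ab b n ≤ ab b m + (1/2)^m := by
  have h2 : ∀ n : ℕ, (0:ℝ) < (1/2)^n := fun n => by positivity
  rcases le_total n m with h | h
  · have := ab_mono b h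
    linarith [h2 m]
  · have := ab_anti b h
    simp only at this
    linarith [h2 n]

/-- the number with given binary expansion -/
noncomputable def UU (b : ℕ → Bool) : ℝ := ⨆ n, ab b n

lemma ab_bdd (b : ℕ → Bool) : BddAbove (range (ab b)) :=
  ⟨ab b 0 + (1/2)^0, by rintro _ ⟨n, rfl⟩; exact ab_le b n 0⟩

lemma ab_le_UU (b : ℕ → Bool) (n : ℕ) : ab b n ≤ UU b := le_ciSup (ab_bdd b) n
lemma UU_le_ab (b : ℕ → Bool) (n : ℕ) : UU b ≤ ab b n + (1/2)^n := ciSup_le fun m => ab_le b m n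

lemma UU_nonneg (b : ℕ → Bool) : 0 ≤ UU b := by
  have := ab_le_UU b 0
  simpa [ab, vb] using this
lemma UU_le_one (b : ℕ → Bool) : UU b ≤ 1 := by
  have := UU_le_ab b 0
  simpa [ab, vb] using this

lemma measurable_UU : Measurable UU := by
  refine measurable_of_tendsto_metrizable (f := fun n b => ab b n) (fun n => ?_) ?_
  · exact ((measurable_of_countable (fun k : ℕ => (k:ℝ))).comp (measurable_vb n)).mul_const _
  · rw [tendsto_pi_nhds]
    intro b
    exact tendsto_atTop_ciSup (ab_mono b) (ab_bdd b)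

lemma lam_vb (n j : ℕ) : lam {b | vb b n = j} ≤ (2⁻¹ : ℝ≥0∞) ^ n := by
  by_cases h : ∃ b0, vb b0 n = j
  · obtain ⟨b0, hb0⟩ := h
    have h1 : {b | vb b n = j} ⊆ Set.pi (Finset.range n : Finset ℕ) (fun i => {b0 i}) := by
      intro b hb i hi
      have hi' : i < n := by simpa using hi
      exact vb_inj (hb.trans hb0.symm) i hi'
    refine (measure_mono h1).trans ?_
    rw [lam_pi, Finset.card_range]
  · have h1 : {b : ℕ → Bool | vb b n = j} = ∅ := by
      ext b
      simp only [mem_ofPred_eq, mem_empty_iff_false, iff_false]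
      exact fun hb => h ⟨b, hb⟩
    rw [h1, measure_empty]
    exact zero_le

lemma lam_preimage_le (n : ℕ) {s : Set ℝ} (hs : Metric.ediam s ≤ (2⁻¹ : ℝ≥0∞) ^ n) :
    lam (UU ⁻¹' s) ≤ 5 * (2⁻¹ : ℝ≥0∞) ^ n := by
  rcases (UU ⁻¹' s).eq_empty_or_nonempty with h | ⟨b0, hb0⟩
  · rw [h, measure_empty]; exact zero_le
  have hp : (0:ℝ) < (1/2)^n := by positivity
  have hd : ∀ b ∈ UU ⁻¹' s, |UU b - UU b0| ≤ (1/2)^n := by
    intro b hb
    have h1 : edist (UU b) (UU b0) ≤ (2⁻¹ : ℝ≥0∞) ^ n := (Metric.edist_le_ediam_of_mem (s := s) (show UU b ∈ s from hb) (show UU b0 ∈ s from hb0)).trans hs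
    rw [edist_dist, ← Real.dist_eq] at *
    have h2 : (2⁻¹ : ℝ≥0∞) ^ n = ENNReal.ofReal ((1/2)^n) := by
      rw [ENNReal.ofReal_pow (by norm_num)]
      congr 1
      rw [one_div, ENNReal.ofReal_inv_of_pos (by norm_num)]
      simp
    rw [h2] at h1
    exact (ENNReal.ofReal_le_ofReal_iff hp.le).1 h1
  have hv : ∀ b ∈ UU ⁻¹' s, vb b n ∈ Finset.Icc (vb b0 n - 2) (vb b0 n + 2) := by
    intro b hb
    have h1 := abs_le.1 (hd b hb)
    have h2 := ab_le_UU b n
    have h3 := UU_le_ab b n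
    have h4 := ab_le_UU b0 n
    have h5 := UU_le_ab b0 n
    unfold ab at h2 h3 h4 h5
    have h6 : ((vb b n : ℝ) - vb b0 n) * (1/2)^n ≤ 2 * (1/2)^n := by linarith [h1.1, h1.2]
    have h7 : ((vb b0 n : ℝ) - vb b n) * (1/2)^n ≤ 2 * (1/2)^n := by linarith [h1.1, h1.2]
    have h8 := le_of_mul_le_mul_right h6 hp
    have h9 := le_of_mul_le_mul_right h7 hp
    have h10 : (vb b n : ℝ) ≤ ((vb b0 n + 2 : ℕ) : ℝ) := by push_cast; linarith
    have h11 : (vb b0 n : ℝ) ≤ ((vb b n + 2 : ℕ) : ℝ) := by push_cast; linarith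
    have h12 : vb b n ≤ vb b0 n + 2 := by exact_mod_cast h10
    have h13 : vb b0 n ≤ vb b n + 2 := by exact_mod_cast h11
    rw [Finset.mem_Icc]; omega
  have hsub : UU ⁻¹' s ⊆ ⋃ j ∈ Finset.Icc (vb b0 n - 2) (vb b0 n + 2), {b | vb b n = j} := by
    intro b hb
    simp only [mem_iUnion]
    exact ⟨vb b n, hv b hb, rfl⟩
  calc lam (UU ⁻¹' s) ≤ lam (⋃ j ∈ Finset.Icc (vb b0 n - 2) (vb b0 n + 2), {b | vb b n = j}) :=
        measure_mono hsub
    _ ≤ ∑ j ∈ Finset.Icc (vb b0 n - 2) (vb b0 n + 2), lam {b | vb b n = j} :=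
        measure_biUnion_finset_le _ _
    _ ≤ ∑ j ∈ Finset.Icc (vb b0 n - 2) (vb b0 n + 2), (2⁻¹ : ℝ≥0∞) ^ n :=
        Finset.sum_le_sum fun j _ => lam_vb n j
    _ = ((vb b0 n + 2 + 1 - (vb b0 n - 2) : ℕ) : ℝ≥0∞) * (2⁻¹ : ℝ≥0∞) ^ n := by
        rw [Finset.sum_const, Nat.card_Icc, nsmul_eq_mul]
    _ ≤ 5 * (2⁻¹ : ℝ≥0∞) ^ n := by
        gcongr
        have : (vb b0 n + 2 + 1 - (vb b0 n - 2) : ℕ) ≤ 5 := by omega
        exact_mod_cast this

lemma lam_preimage_le_ediam {s : Set ℝ} (hs : Metric.ediam s ≤ 1) :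
    lam (UU ⁻¹' s) ≤ 10 * Metric.ediam s := by
  rcases eq_or_ne (Metric.ediam s) 0 with h0 | h0
  · have h1 : ∀ n : ℕ, lam (UU ⁻¹' s) ≤ 5 * (2⁻¹ : ℝ≥0∞) ^ n := fun n =>
      lam_preimage_le n (by rw [h0]; exact zero_le)
    have h2 : Tendsto (fun n : ℕ => 5 * (2⁻¹ : ℝ≥0∞) ^ n) atTop (𝓝 (5 * 0)) := by
      refine ENNReal.Tendsto.const_mul ?_ (Or.inr (by norm_num))
      exact ENNReal.tendsto_pow_atTop_nhds_zero_of_lt_one (by simp)
    rw [mul_zero] at h2
    have h3 := ge_of_tendsto' h2 h1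
    rw [h0, mul_zero]; exact h3
  · -- the least `n` with `2⁻ⁿ⁻¹ < ediam s`
    have h2 : Tendsto (fun n : ℕ => (2⁻¹ : ℝ≥0∞) ^ n) atTop (𝓝 0) :=
      ENNReal.tendsto_pow_atTop_nhds_zero_of_lt_one (by simp)
    have hex : ∃ n : ℕ, (2⁻¹ : ℝ≥0∞) ^ n < Metric.ediam s :=
      (h2.eventually_lt_const (pos_iff_ne_zero.2 h0)).exists
    classical
    have hspec := Nat.find_spec hex
    have hpos : Nat.find hex ≠ 0 := by
      intro h
      rw [h, pow_zero] at hspec
      exact absurd hspec (not_lt.2 hs)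
    obtain ⟨m, hm⟩ := Nat.exists_eq_succ_of_ne_zero hpos
    have hmin : ¬ (2⁻¹ : ℝ≥0∞) ^ m < Metric.ediam s := Nat.find_min hex (by omega)
    rw [hm] at hspec
    refine (lam_preimage_le m (not_lt.1 hmin)).trans ?_
    have h4 : 5 * (2⁻¹ : ℝ≥0∞) ^ m = 10 * (2⁻¹ : ℝ≥0∞) ^ (m+1) := by
      rw [pow_succ, show (10 : ℝ≥0∞) = 5 * 2 by norm_num]
      rw [mul_comm ((2⁻¹ : ℝ≥0∞) ^ m) 2⁻¹, ← mul_assoc, mul_assoc 5 2 2⁻¹,
        ENNReal.mul_inv_cancel (by norm_num) (by norm_num), mul_one]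
    rw [h4]
    exact mul_le_mul_right hspec.le _

theorem map_le : lam.map UU ≤ (10 : ℝ≥0∞) • (volume : Measure ℝ) := by
  have h1 : (10 : ℝ≥0∞)⁻¹ • lam.map UU ≤ (volume : Measure ℝ) := by
    rw [← hausdorffMeasure_real]
    refine Measure.le_hausdorffMeasure 1 _ 1 one_pos fun s hs => ?_
    rw [ENNReal.rpow_one, Measure.smul_apply, smul_eq_mul]
    have h2 : lam.map UU s ≤ 10 * Metric.ediam s := by
      calc lam.map UU s ≤ lam.map UU (closure s) := measure_mono subset_closure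
        _ = lam (UU ⁻¹' closure s) := Measure.map_apply measurable_UU isClosed_closure.measurableSet
        _ ≤ 10 * Metric.ediam (closure s) :=
            lam_preimage_le_ediam (by rw [Metric.ediam_closure]; exact hs)
        _ = 10 * Metric.ediam s := by rw [Metric.ediam_closure]
    calc (10 : ℝ≥0∞)⁻¹ * lam.map UU s ≤ 10⁻¹ * (10 * Metric.ediam s) := by gcongr
      _ = Metric.ediam s := by
        rw [← mul_assoc, ENNReal.inv_mul_cancel (by norm_num) (by norm_num), one_mul]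
  have h2 : (10 : ℝ≥0∞) • ((10 : ℝ≥0∞)⁻¹ • lam.map UU) ≤ (10 : ℝ≥0∞) • (volume : Measure ℝ) := by
    intro s
    simp only [Measure.smul_apply, smul_eq_mul]
    gcongr
    exact h1 s
  rwa [smul_smul, ENNReal.mul_inv_cancel (by norm_num) (by norm_num), one_smul] at h2

/-- Preimages of Lebesgue null sets under the binary expansion map are null. -/
theorem lam_preimage_eq_zero {N : Set ℝ} (hN : volume N = 0) : lam (UU ⁻¹' N) = 0 := by
  refine le_antisymm ?_ zero_le
  calc lam (UU ⁻¹' N) ≤ lam.map UU N := Measure.le_map_apply measurable_UU.aemeasurable N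
    _ ≤ ((10 : ℝ≥0∞) • (volume : Measure ℝ)) N := map_le N
    _ = 0 := by rw [Measure.smul_apply, hN, smul_zero]

/-- `non(N) ≤ |K|` for the line. -/
theorem exists_not_null {K : Type} (h : PhiFor K) : ∃ Y : Set ℝ, #Y ≤ #K ∧ volume Y ≠ 0 := by
  obtain ⟨r, hr⟩ := exists_nonnull h
  refine ⟨range fun k => UU (r k), mk_range_le, fun h0 => ?_⟩
  obtain ⟨k, hk⟩ := hr _ (lam_preimage_eq_zero h0)
  exact hk ⟨k, rfl⟩

/-- `|K| < cov(N)` for the line, and in fact for the unit interval. -/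
theorem exists_not_covered {K : Type} (h : PhiFor K) {F : Set (Set ℝ)}
    (hF : ∀ X ∈ F, volume X = 0) (hle : #F ≤ #K) : ∃ x ∈ Icc (0:ℝ) 1, ∀ X ∈ F, x ∉ X := by
  obtain ⟨x, hx⟩ := exists_notMem_of_le h (F := (fun X => UU ⁻¹' X) '' F)
    (by rintro _ ⟨X, hX, rfl⟩; exact lam_preimage_eq_zero (hF X hX)) (mk_image_le.trans hle)
  exact ⟨UU x, ⟨UU_nonneg x, UU_le_one x⟩, fun X hX h' => hx _ ⟨X, hX, rfl⟩ h'⟩

end Pool.Agent.Helper872.RN
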