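import Mathlib
import Pool.Agent.Helper872.RN.Transfer

/-!
# From Cantor space to the unit interval
-/

set_option autoImplicit false

namespace Pool.Agent.Helper872.RN

open MeasureTheory Set Cardinal
open Pool.Agent.V11242.RN (lam PhiFor exists_notMem exists_nonnull exists_notMem_of_le)

/-- binary expansion, with values in the unit interval -/
noncomputable def VV (b : ℕ → Bool) : unitInterval := ⟨UU b, UU_nonneg b, UU_le_one b⟩

theorem lam_preimage_VV {N : Set unitInterval} (hN : volume N = 0) : lam (VV ⁻¹' N) = 0 := by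
  have h1 : volume ((↑) '' N : Set ℝ) = 0 := by
    rwa [volume_set_coe_def, comap_subtype_coe_apply measurableSet_Icc] at hN
  refine measure_mono_null (fun b hb => ?_) (lam_preimage_eq_zero h1)
  exact ⟨VV b, hb, rfl⟩

/-- `non(N) ≤ |K|` for the unit interval. -/
theorem exists_not_null' {K : Type} (h : PhiFor K) :
    ∃ Y : Set unitInterval, #Y ≤ #K ∧ volume Y ≠ 0 := by
  obtain ⟨r, hr⟩ := exists_nonnull h
  refine ⟨range fun k => VV (r k), mk_range_le, fun h0 => ?_⟩
  obtain ⟨k, hk⟩ := hr _ (lam_preimage_VV h0)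
  exact hk ⟨k, rfl⟩

/-- `|K| < cov(N)` for the unit interval. -/
theorem exists_not_covered' {K : Type} (h : PhiFor K) {F : Set (Set unitInterval)}
    (hF : ∀ X ∈ F, volume X = 0) (hle : #F ≤ #K) : ∃ x : unitInterval, ∀ X ∈ F, x ∉ X := by
  obtain ⟨x, hx⟩ := exists_notMem_of_le h (F := (fun X => VV ⁻¹' X) '' F)
    (by rintro _ ⟨X, hX, rfl⟩; exact lam_preimage_VV (hF X hX)) (mk_image_le.trans hle)
  exact ⟨VV x, fun X hX h' => hx _ ⟨X, hX, rfl⟩ h'⟩

end Pool.Agent.Helper872.RN
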