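import Mathlib
import Pool.Agent.V11242.RN.Forced
import Pool.Agent.Helper872.RN.UnitInt
import Pool.Agent.Y568.CP.Card

/-!
# `non(N) ≤ |K| < cov(N) = 𝔠 = |K|⁺` in the random model

The sentence `SepFor K Y`: `PhiFor K` holds, there is a family of subsets of `ω`, indexed by `Y`,
which contains all of them, and there are functions `f b : K → Y` for `b ∈ Y` such that of any two
elements `a`, `b` of `Y` one is in the range of the function which belongs to the other one (so
`|Y| ≤ |K|⁺`).
-/

set_option autoImplicit false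

namespace Pool.Agent.Helper872.RN

open Cardinal Set Pool.Agent.TH773.PSet Pool.Agent.V11242 Pool.Agent.V11242.RN

universe u

section Forcing

variable (P : Type u) [Preorder P]

/-- There is a family of subsets of `ω`, indexed by `Y`, which contains all subsets of `ω`. -/
def RealsLe (Y : Type) : Set P :=
  fex fun D : Y → RName P => fall fun A : RName P => fex fun y => Same A (D y)

/-- There is a relation `R` such that every `R b` is a partial function from `K` to `Y`, and of any
two elements `a`, `b` of `Y` one is in the range of the function given by the other one. -/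
def SuccLe (K Y : Type) : Set P :=
  fex fun R : Y → K → Y → Set P => fand
    (fall fun b => fall fun k => fall fun a => fall fun a' => fall fun _ : a ≠ a' =>
      fnot (fand (meets (R b k a)) (meets (R b k a'))))
    (fall fun a => fall fun b =>
      disj (fex fun k => meets (R b k a)) (fex fun k => meets (R a k b)))

/-- The sentence `SepFor K Y`, in the forcing language. -/
def SepHolds (K Y : Type) : Set P := fand (PhiHolds P K) (fand (RealsLe P Y) (SuccLe P K Y))

end Forcing

/-- The same sentence, outside of the forcing language. In other words,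
`non(N) ≤ |K| < cov(N)` and `𝔠 ≤ |Y| ≤ |K|⁺`. -/
def SepFor (K Y : Type) : Prop :=
  PhiFor K ∧ (∃ D : Y → ℕ → Prop, ∀ A : ℕ → Prop, ∃ y, ∀ n, A n ↔ D y n) ∧
  (∃ R : Y → K → Y → Prop, (∀ b k a a', a ≠ a' → ¬ (R b k a ∧ R b k a')) ∧
    ∀ a b, (∃ k, R b k a) ∨ (∃ k, R a k b))

/-! ### The forcing theorem -/

open MeasureTheory

theorem mk_measurableSet_le {I : Type} (hI : ℵ₀ ≤ #I) (hpow : #I ^ ℵ₀ = #I) :
    #{S : Set (I × ℕ → Bool) | MeasurableSet S} ≤ #I := by
  let s : Set (Set (I × ℕ → Bool)) := range fun t : I × ℕ => {x | x t = true}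
  have h1 : (MeasurableSpace.pi : MeasurableSpace (I × ℕ → Bool)) ≤
      MeasurableSpace.generateFrom s := by
    refine iSup_le fun t => ?_
    rw [← measurable_iff_comap_le]
    refine @measurable_to_bool _ (MeasurableSpace.generateFrom s) _ ?_
    refine MeasurableSpace.measurableSet_generateFrom ⟨t, ?_⟩
    ext x
    simp
  have h2 : {S : Set (I × ℕ → Bool) | MeasurableSet S} ⊆
      {S | MeasurableSet[MeasurableSpace.generateFrom s] S} := fun S hS => h1 S hS
  have h3 : #s ≤ #I := by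
    refine mk_range_le.trans ?_
    rw [mk_prod, lift_id, lift_id, mk_nat, mul_aleph0_eq hI]
  have h4 : max #s 2 ≤ #I :=
    max_le h3 ((natCast_lt_aleph0 (n := 2)).le.trans hI)
  calc _ ≤ #{S | MeasurableSet[MeasurableSpace.generateFrom s] S} := mk_le_mk_of_subset h2
    _ ≤ max #s 2 ^ ℵ₀ := MeasurableSpace.cardinal_measurableSet_le s
    _ ≤ #I ^ ℵ₀ := power_le_power_right h4
    _ = #I := hpow

theorem same_AE {Ω : Type u} [MeasurableSpace Ω] {μ : Measure Ω} [IsFiniteMeasure μ]
    (A : RName (Cond μ)) (p : Cond μ) : p ∈ Same A (fun n => AE μ (RF.rep (A n))) := by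
  have h1 : ∀ n, meets (AE μ (RF.rep (A n))) = meets (A n) := fun n => by
    rw [meets_AE (RF.measurable_rep _), RF.meets_rep]
  refine ⟨fun n => ?_, fun n => ?_⟩
  · show p ∈ fimp (meets (A n)) (meets (AE μ (RF.rep (A n))))
    rw [h1]
    exact mem_fimp.2 fun q _ hq => ⟨q, le_rfl, hq⟩
  · show p ∈ fimp (meets (AE μ (RF.rep (A n)))) (meets (A n))
    rw [h1]
    exact mem_fimp.2 fun q _ hq => ⟨q, le_rfl, hq⟩

theorem realsLe {I : Type} (hI : ℵ₀ ≤ #I) (hpow : #I ^ ℵ₀ = #I) (p : Random I) :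
    p ∈ RealsLe (Random I) I := by
  let M : Type := ℕ → {S : Set (I × ℕ → Bool) | MeasurableSet S}
  have hM : #M ≤ #I := by
    calc #M = #{S : Set (I × ℕ → Bool) | MeasurableSet S} ^ ℵ₀ := by
          rw [← mk_nat, power_def]
      _ ≤ #I ^ ℵ₀ := power_le_power_right (mk_measurableSet_le hI hpow)
      _ = #I := hpow
  obtain ⟨e⟩ := hM
  have hmem : ∀ S : Set (I × ℕ → Bool), MeasurableSet S →
      S ∈ {S : Set (I × ℕ → Bool) | MeasurableSet S} := fun S h => by
    rw [mem_ofPred_eq]
    exact h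
  have : Nonempty M := ⟨fun _ => ⟨univ, hmem _ MeasurableSet.univ⟩⟩
  refine mem_fex_of (fun i n => AE (coinProduct I) (Function.invFun e i n).1) fun q _ A => ?_
  refine mem_fex_of (e fun n => ⟨RF.rep (A n), hmem _ (RF.measurable_rep _)⟩) fun r _ => ?_
  have h1 := Function.leftInverse_invFun e.injective
    (fun n => ⟨RF.rep (A n), hmem _ (RF.measurable_rep _)⟩)
  show r ∈ Same A (fun n => AE (coinProduct I)
    (Function.invFun e (e fun n => ⟨RF.rep (A n), hmem _ (RF.measurable_rep _)⟩) n).1)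
  rw [h1]
  exact same_AE A r

theorem succLe {P K Y : Type} [Preorder P] (hK : ℵ₀ ≤ #K) (hY : #Y = Order.succ #K) (p : P) :
    p ∈ SuccLe P K Y := by
  classical
  obtain ⟨e⟩ : Nonempty (Y ≃ (Order.succ #K).ord.ToType) :=
    Cardinal.eq.1 (hY.trans (Cardinal.mk_ord_toType _).symm)
  have h1 : ∀ b : (Order.succ #K).ord.ToType, #(Iic b) ≤ #K := by
    intro b
    have h2 : Iic b = insert b (Iio b) := by
      ext j
      simp [le_iff_lt_or_eq, or_comm]
    rw [h2]
    have h3 : #(Iio b) < Order.succ #K := Cardinal.mk_Iio_toType_ord_lt b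
    have h4 : #(Iio b) ≤ #K := Order.lt_succ_iff.1 h3
    refine mk_insert_le.trans ((add_le_add h4 (one_lt_aleph0.le.trans hK)).trans ?_)
    rw [add_eq_self hK]
  have h5 : ∀ b : (Order.succ #K).ord.ToType, ∃ g : K → Y, ∀ a, e a ≤ b → ∃ k, g k = a := by
    intro b
    obtain ⟨j⟩ := h1 b
    have : Nonempty (Iic b) := ⟨⟨b, mem_Iic.2 le_rfl⟩⟩
    refine ⟨fun k => e.symm (Function.invFun j k).1, fun a ha => ⟨j ⟨e a, mem_Iic.2 ha⟩, ?_⟩⟩
    simp only
    rw [Function.leftInverse_invFun j.injective, e.symm_apply_apply]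
  choose g hg using h5
  have hm : ∀ (b : Y) (k : K) (a : Y) (q : P), q ∈ meets {_p : P | g (e b) k = a} ↔
      g (e b) k = a := by
    intro b k a q
    constructor
    · intro h
      obtain ⟨r, -, s, hs, -⟩ := h q le_rfl
      exact hs
    · intro h r _
      exact ⟨r, le_rfl, r, h, le_rfl⟩
  refine mem_fex_of (fun b k a => {_p | g (e b) k = a}) fun q _ => ⟨?_, ?_⟩
  · intro b k a a' hne r _ hr
    exact hne (((hm b k a r).1 hr.1).symm.trans ((hm b k a' r).1 hr.2))
  · intro a b
    refine mem_disj.2 fun r _ => ⟨r, le_rfl, ?_⟩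
    rcases le_total (e a) (e b) with h | h
    · obtain ⟨k, hk⟩ := hg (e b) a h
      exact Or.inl (mem_fex_of k fun s _ => (hm b k a s).2 hk)
    · obtain ⟨k, hk⟩ := hg (e a) b h
      exact Or.inr (mem_fex_of k fun s _ => (hm a k b s).2 hk)

theorem exists_forcing_sep : ∃ (K Y P : Type) (_ : Preorder P), Nonempty P ∧
    (∀ A : Set P, (∀ p ∈ A, ∀ q ∈ A, p ≠ q → ¬ ∃ r, r ≤ p ∧ r ≤ q) → A.Countable) ∧
    ∀ p : P, p ∈ SepHolds P K Y := by
  let K : Type := Set ℕ
  let I : Type := (Order.succ #K : Cardinal.{0}).out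
  have hKc : #K = 𝔠 := by
    show #(Set ℕ) = 𝔠
    rw [mk_set, mk_nat, two_power_aleph0]
  have hK : ℵ₀ < #K := by
    rw [hKc]
    exact aleph0_lt_continuum
  have hIe : #I = Order.succ #K := mk_out _
  have hI : #K < #I := by
    rw [hIe]
    exact Order.lt_succ _
  have hpow : #I ^ ℵ₀ = #I := by
    rw [hIe]
    refine Pool.Agent.Y568.CP.succ_pow _ hK.le ?_
    rw [hKc, continuum_power_aleph0]
  refine ⟨K, I, Random I, inferInstance, ⟨RF.mk Set.univ MeasurableSet.univ (by simp)⟩, ?_,
    fun p => ⟨phiHolds hK hI p, realsLe (hK.le.trans hI.le) hpow p, succLe hK.le hIe p⟩⟩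
  intro A hA
  refine RF.countable_of_incomp (μ := coinProduct I) (fun p : A => p.1) fun p q hpq => ?_
  exact hA p.1 p.2 q.1 q.2 fun h => hpq (Subtype.ext h)

/-! ### What the sentence says -/

theorem aleph0_lt {K : Type} (h : PhiFor K) : ℵ₀ < #K := by
  obtain ⟨Y, h1, h2⟩ := exists_not_null h
  by_contra hle
  exact h2 ((Cardinal.le_aleph0_iff_set_countable.1 (h1.trans (not_lt.1 hle))).measure_zero _)

theorem continuum_le {K Y : Type} (h : SepFor K Y) : (𝔠 : Cardinal.{0}) ≤ #Y := by
  obtain ⟨D, hD⟩ := h.2.1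
  have h1 : Function.Surjective D := fun A => by
    obtain ⟨y, hy⟩ := hD A
    exact ⟨y, funext fun n => propext (hy n).symm⟩
  have h2 := mk_le_of_surjective h1
  have h3 : #(ℕ → Prop) = 𝔠 := by simp
  rwa [h3] at h2

theorem le_succ_of {K Y : Type} (h : SepFor K Y) : #Y ≤ Order.succ #K := by
  have hK := aleph0_lt h.1
  obtain ⟨R, hR1, hR2⟩ := h.2.2
  have h1 : ∀ b : Y, #{a | ∃ k, R b k a} ≤ #K := by
    intro b
    refine mk_le_of_injective (f := fun a => a.2.choose) fun a a' haa => ?_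
    by_contra hne
    have h2 := a.2.choose_spec
    have h3 := a'.2.choose_spec
    have haa' : a.2.choose = a'.2.choose := haa
    rw [haa'] at h2
    exact hR1 b _ a.1 a'.1 (fun h => hne (Subtype.ext h)) ⟨h2, h3⟩
  by_contra hlt
  rw [not_le] at hlt
  obtain ⟨B, hB⟩ := le_mk_iff_exists_set.1 hlt.le
  have h2 : #(⋃ b ∈ B, {a | ∃ k, R b k a} : Set Y) ≤ Order.succ #K := by
    refine (mk_biUnion_le _ _).trans ?_
    rw [hB]
    calc Order.succ #K * ⨆ x : B, #{a | ∃ k, R x.1 k a} ≤ Order.succ #K * Order.succ #K :=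
          mul_le_mul' le_rfl (ciSup_le' fun b => (h1 _).trans (Order.le_succ _))
      _ = Order.succ #K := mul_eq_self (hK.le.trans (Order.le_succ _))
  obtain ⟨y, hy⟩ : ∃ y, y ∉ (⋃ b ∈ B, {a | ∃ k, R b k a} : Set Y) := by
    by_contra hcon
    push Not at hcon
    rw [eq_univ_of_forall hcon, mk_univ] at h2
    exact absurd h2 (not_le.2 hlt)
  have h3 : B ⊆ {a | ∃ k, R y k a} := by
    intro b hb
    rcases hR2 y b with h4 | h4
    · exact absurd (mem_iUnion₂.2 ⟨b, hb, h4⟩) hy
    · exact h4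
  have h4 := (mk_le_mk_of_subset h3).trans (h1 y)
  rw [hB] at h4
  exact absurd h4 (not_le.2 (Order.lt_succ _))

end Pool.Agent.Helper872.RN
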